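import Pool.Agent.Helper49K9.AD.FixB
import Pool.Agent.Helper49K9.AD.AxisG
import Pool.Agent.H984R3.Per.UpPi
import Pool.Agent.H984R3.Per.LowEV
import Pool.Agent.H985R3.TA.Main
import Pool.Agent.H985R3.TA.STA
import Pool.Agent.H160R2.SA.Arm

/-!
Critical bond percolation on the square lattice (the FK model with `q = 1` at its self-dual point
`p = 1/2`) in ARBITRARY bounded plane domains, with Dobrushin boundary conditions: subsequential
scaling limits of the exploration path, for the Hausdorff metric on compact sets.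

Definitions (`Pool.Agent.Helper49K9.AD.Defs`):
* `Dob`: a discrete Dobrushin domain (random edges `E`, wired edges `W`, all other edges closed,
  ends `a`, `b` of the exploration path); `Dob.law δ`: the law of the trace of the exploration
  path at mesh `δ`, all subsets of `E` being equally likely, as a probability measure on the space
  of nonempty compact subsets of `ℂ` with the Hausdorff metric;
* `Approx D a b 𝒟 δ`: the discrete domains `𝒟 i` at mesh `δ i → 0` approximate `(D, a, b)`;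
* `Arcs A B 𝒟 δ`: wired edges are met only close to `A`, closed non-random edges only close
  to `B`.
-/

set_option autoImplicit false

namespace Pool.Agent.Results.MP_b3e76a_pr.ArbitraryDomains

open MeasureTheory TopologicalSpace Filter Topology Metric Set
open Pool.Agent.Helper49K9.AD
open Pool.Agent.H389R2.CD (ArS)
open scoped ENNReal

theorem inputs : (∃ c : ℝ, 0 < c ∧ H984P.LowA c (1/4)) ∧
    (∃ C : ℝ, 0 < C ∧ H342P.TwoUp C (1/4)) ∧ (∃ C : ℝ, 0 < C ∧ H984N.AnnUp C) ∧ ArS := by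
  refine ⟨?_, ?_, ?_, Pool.Agent.H160R2.SA.arSharp⟩
  · obtain ⟨B, m0, κ, hκ, h⟩ := H985T.EV_lower
    obtain ⟨c, hc, h2⟩ := H984P.lowA_of_EV (B := B) (m0 := m0) (s := 1/4) hκ (by norm_num)
      (fun m hm => by
        obtain ⟨ρ, c, s, c', f0, h1, h2, h3⟩ := h m hm
        exact ⟨ρ, c, s, c', f0, h2, h1, h3⟩)
    exact ⟨c, hc, h2⟩
  · obtain ⟨C, hC, h⟩ := H985T.pi2_upper
    exact ⟨C, hC, H984P.twoUp_of_pi2 hC (by norm_num) h⟩
  · obtain ⟨C, hC, h⟩ := H985T.st_A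
    exact ⟨C, hC, fun r R hr hR c1 c2 S => h r R hr hR c1 c2 S⟩

theorem seven : ENNReal.ofReal (7/4) = 7/4 := by
  rw [ENNReal.ofReal_div_of_pos (by norm_num)]
  norm_num

theorem quarter : ENNReal.ofReal (1/4) = 1/4 := by
  rw [ENNReal.ofReal_div_of_pos (by norm_num)]
  norm_num

theorem five : ENNReal.ofReal (5/48) = 5/48 := by
  rw [ENNReal.ofReal_div_of_pos (by norm_num)]
  norm_num

theorem sub_dim : (89/48 : ℝ≥0∞) - 5/48 = 7/4 := by
  have e : (89/48 : ℝ≥0∞) = ENNReal.ofReal (89/48) := by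
    rw [ENNReal.ofReal_div_of_pos (by norm_num)]
    norm_num
  rw [e, ← five, ← seven, ← ENNReal.ofReal_sub _ (by norm_num)]
  norm_num

theorem result :
    -- (I) arbitrary bounded domains
    (∃ C : ℝ, 0 < C ∧ ∀ (D : Set ℂ) (a b : ℂ) (𝒟 : ℕ → Dob) (δ : ℕ → ℝ),
      IsOpen D → Bornology.IsBounded D → a ∉ D → b ∉ D → Approx D a b 𝒟 δ →
      (∃ φ : ℕ → ℕ, StrictMono φ ∧ ∃ μ : ProbabilityMeasure (NonemptyCompacts ℂ),
        Tendsto (fun i => (𝒟 (φ i)).law (δ (φ i))) atTop (𝓝 μ)) ∧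
      ∀ μ : ProbabilityMeasure (NonemptyCompacts ℂ),
        Tendsto (fun i => (𝒟 i).law (δ i)) atTop (𝓝 μ) →
        (∀ᵐ K : NonemptyCompacts ℂ ∂(μ : Measure (NonemptyCompacts ℂ)),
          IsConnected (K : Set ℂ) ∧ a ∈ (K : Set ℂ) ∧ b ∈ (K : Set ℂ) ∧ (K : Set ℂ) ⊆ closure D ∧
            ∀ U : Set ℂ, IsOpen U → U ⊆ D → ((K : Set ℂ) ∩ U).Nonempty →
              dimH ((K : Set ℂ) ∩ U) = 7/4) ∧
        (∀ (z : ℂ) (ρ s : ℝ), 0 < s → s ≤ ρ → ball z ρ ⊆ D →
          (μ : Measure (NonemptyCompacts ℂ)) {K | ((K : Set ℂ) ∩ ball z s).Nonempty} ≤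
            ENNReal.ofReal (C * (s / ρ) ^ (1/4 : ℝ))) ∧
        (∀ A B : Set ℂ, Arcs A B 𝒟 δ → ∀ (z : ℂ) (ρ s : ℝ), 0 < s → s ≤ ρ → a ∉ ball z ρ →
          (Disjoint A (ball z ρ) ∨ Disjoint B (ball z ρ)) →
          (μ : Measure (NonemptyCompacts ℂ)) {K | ((K : Set ℂ) ∩ ball z s).Nonempty} ≤
            ENNReal.ofReal (C * (s / ρ) ^ (5/48 : ℝ))) ∧
        (∀ S ⊆ D,
          (μH[1/4] S = 0 → ∀ᵐ K : NonemptyCompacts ℂ ∂(μ : Measure (NonemptyCompacts ℂ)),
            (K : Set ℂ) ∩ S = ∅) ∧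
          ∀ᵐ K : NonemptyCompacts ℂ ∂(μ : Measure (NonemptyCompacts ℂ)),
            dimH ((K : Set ℂ) ∩ S) ≤ dimH S - 1/4)) ∧
    -- (II) Jordan domains
    (∀ (D : Set ℂ) (γ : ℝ → ℂ) (t : ℝ) (𝒟 : ℕ → Dob) (δ : ℕ → ℝ),
      IsOpen D → Bornology.IsBounded D → Continuous γ → γ 1 = γ 0 → Set.InjOn γ (Ico 0 1) →
      frontier D = γ '' Icc 0 1 → 0 < t → t < 1 → Approx D (γ 0) (γ t) 𝒟 δ →
      Arcs (γ '' Icc 0 t) (γ '' Icc t 1) 𝒟 δ →
      ∀ μ : ProbabilityMeasure (NonemptyCompacts ℂ),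
        Tendsto (fun i => (𝒟 i).law (δ i)) atTop (𝓝 μ) →
        (∀ᵐ K : NonemptyCompacts ℂ ∂(μ : Measure (NonemptyCompacts ℂ)),
          ((K : Set ℂ) ∩ D).Nonempty ∧ dimH ((K : Set ℂ) ∩ D) = 7/4) ∧
        (∀ S : Set ℂ,
          (μH[5/48] S = 0 → ∀ᵐ K : NonemptyCompacts ℂ ∂(μ : Measure (NonemptyCompacts ℂ)),
            (K : Set ℂ) ∩ S ⊆ {γ 0, γ t}) ∧
          ∀ᵐ K : NonemptyCompacts ℂ ∂(μ : Measure (NonemptyCompacts ℂ)),
            dimH ((K : Set ℂ) ∩ S) ≤ dimH S - 5/48) ∧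
        (dimH (frontier D) ≤ 89/48 →
          ∀ᵐ K : NonemptyCompacts ℂ ∂(μ : Measure (NonemptyCompacts ℂ)),
            dimH (K : Set ℂ) = 7/4)) ∧
    -- (III) existence of approximations of the domains crossed once by the imaginary axis
    (∀ (D : Set ℂ) (y₁ y₂ : ℝ) (δ : ℕ → ℝ), IsOpen D → Bornology.IsBounded D → y₁ < y₂ →
      (∀ y : ℝ, (⟨0, y⟩ : ℂ) ∈ D ↔ y₁ < y ∧ y < y₂) → (∀ i, 0 < δ i) →
      Tendsto δ atTop (𝓝 0) → ∃ 𝒟 : ℕ → Dob, Approx D ⟨0, y₂⟩ ⟨0, y₁⟩ 𝒟 δ ∧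
        Arcs {z | z ∈ frontier D ∧ z.re ≤ 0} {z | z ∈ frontier D ∧ 0 ≤ z.re} 𝒟 δ) := by
  obtain ⟨⟨c0, hc0, hL⟩, ⟨C0, hC0, hU⟩, ⟨C2, hC2, hA⟩, hAr⟩ := inputs
  obtain ⟨Cw, hCw, hw⟩ := hit_w hAr
  obtain ⟨Cf, hCf, hf⟩ := hit_f hAr
  refine ⟨⟨max (16 * C2 + 64) (max Cw Cf), by positivity, ?_⟩, ?_,
    fun D y₁ y₂ δ hDo hDb hy hax hδ hlim => exists_approx hDo hDb hy hax hδ hlim⟩
  · intro D a b 𝒟 δ hDo hDb haD hbD hap
    refine ⟨exists_limit hDb hap, fun μ hμ => ⟨?_, ?_, ?_, ?_⟩⟩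
    · filter_upwards [lim_connected hμ, lim_a hap hμ, lim_b hap hμ, lim_closure hap hμ,
        lim_upper hC2 hA hDo hap haD hμ, lim_lower hc0 hC0 hL hU hC2 hA hap haD hbD hμ]
        with K k1 k2 k3 k4 k5 k6
      refine ⟨k1, k2, k3, k4, fun U hUo hUD hne => le_antisymm ?_ ?_⟩
      · rw [← seven]
        exact (dimH_mono (inter_subset_inter_right _ hUD)).trans k5
      · rw [← seven]
        exact k6 U hUo hUD hne
    · intro z ρ s hs hsρ hball
      have h1 := hit_int hC2 hA D a b 𝒟 δ hap haD z ρ s hs hsρ hball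
      refine (lim_ph hμ h1).trans (ENNReal.ofReal_le_ofReal ?_)
      have hρ : 0 < ρ := by linarith
      have h2 : 0 ≤ (s / ρ) ^ (1/4 : ℝ) := by positivity
      exact mul_le_mul_of_nonneg_right (le_max_left _ _) h2
    · intro A B hAB z ρ s hs hsρ haz hor
      have hρ : 0 < ρ := by linarith
      have h2 : 0 ≤ (s / ρ) ^ (5/48 : ℝ) := by positivity
      rcases hor with h | h
      · have h1 := hf D a b 𝒟 δ A B hap hAB z ρ s hs hsρ haz
          (fun x hx hxz => Set.disjoint_left.1 h hx hxz)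
        refine (lim_ph hμ h1).trans (ENNReal.ofReal_le_ofReal ?_)
        exact mul_le_mul_of_nonneg_right (le_trans (le_max_right _ _) (le_max_right _ _)) h2
      · have h1 := hw D a b 𝒟 δ A B hap hAB z ρ s hs hsρ haz
          (fun x hx hxz => Set.disjoint_left.1 h hx hxz)
        refine (lim_ph hμ h1).trans (ENNReal.ofReal_le_ofReal ?_)
        exact mul_le_mul_of_nonneg_right (le_trans (le_max_left _ _) (le_max_right _ _)) h2
    · intro S hS
      rw [← quarter]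
      exact fixed_int hC2 hA hDo hap haD hμ hS
  · intro D γ t 𝒟 δ hDo hDb hγ hper hinj hfr ht0 ht1 hap har μ hμ
    have h0D : γ 0 ∉ D := by
      have : γ 0 ∈ frontier D := by rw [hfr]; exact ⟨0, ⟨le_rfl, zero_le_one⟩, rfl⟩
      rw [frontier, hDo.interior_eq] at this
      exact this.2
    have htD : γ t ∉ D := by
      have : γ t ∈ frontier D := by rw [hfr]; exact ⟨t, ⟨ht0.le, ht1.le⟩, rfl⟩
      rw [frontier, hDo.interior_eq] at this
      exact this.2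
    have hmain : ∀ᵐ K : NonemptyCompacts ℂ ∂(μ : Measure (NonemptyCompacts ℂ)),
        ((K : Set ℂ) ∩ D).Nonempty ∧ dimH ((K : Set ℂ) ∩ D) = 7/4 := by
      filter_upwards [jordan_enter hC2 hA hAr hDo hγ hper hinj hfr ht0 ht1 hap har hμ,
        lim_upper hC2 hA hDo hap h0D hμ, lim_lower hc0 hC0 hL hU hC2 hA hap h0D htD hμ]
        with K k1 k2 k3
      refine ⟨k1, le_antisymm ?_ ?_⟩
      · rw [← seven]; exact k2
      · rw [← seven]; exact k3 D hDo subset_rfl k1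
    have hfix : ∀ S : Set ℂ,
        (μH[5/48] S = 0 → ∀ᵐ K : NonemptyCompacts ℂ ∂(μ : Measure (NonemptyCompacts ℂ)),
          (K : Set ℂ) ∩ S ⊆ {γ 0, γ t}) ∧
        ∀ᵐ K : NonemptyCompacts ℂ ∂(μ : Measure (NonemptyCompacts ℂ)),
          dimH ((K : Set ℂ) ∩ S) ≤ dimH S - 5/48 := by
      intro S
      rw [← five]
      exact fixed_jordan hAr hγ hper hinj ht0 ht1 hap har hμ S
    refine ⟨hmain, hfix, fun hdim => ?_⟩
    filter_upwards [hmain, (hfix (frontier D)).2, lim_closure hap hμ] with K k1 k2 k3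
    have hsub : (K : Set ℂ) = ((K : Set ℂ) ∩ D) ∪ ((K : Set ℂ) ∩ frontier D) := by
      ext x
      constructor
      · intro hx
        by_cases hxD : x ∈ D
        · exact Or.inl ⟨hx, hxD⟩
        · refine Or.inr ⟨hx, ?_⟩
          rw [frontier, hDo.interior_eq]
          exact ⟨k3 hx, hxD⟩
      · rintro (h | h)
        · exact h.1
        · exact h.1
    rw [hsub, dimH_union, k1.2]
    apply max_eq_left
    refine k2.trans ((tsub_le_tsub_right hdim _).trans ?_)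
    rw [sub_dim]

end Pool.Agent.Results.MP_b3e76a_pr.ArbitraryDomains
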