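import Pool.Agent.Helper38K9.NI.Fin
import Pool.Agent.Helper47K9.FQ.Gen2

/-!
Bond percolation on `δ ℤ²` (the FK model with `q = 1`) in a rectangle `D = (-A, B) × (0, H)`, with
the counterclockwise boundary arc from `a = t + i H` to `b = 0` wired and the other one dual-wired:
the near-critical window of the exploration path is exactly `|p - 1/2| ≍ δ^(3/4)`.

(1) In every monotone coupling of the models with parameters `1/2 - x` and `1/2 + x`, the traces of
all configurations between the two are within `ε` of each other for the Hausdorff metric, but for an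
event of probability at most `C ε^(-2) x δ^(-3/4)`. (2) If the configuration is any
random set of edges (the edges may depend on each other) such that the conditional probability of
each edge given all the others is within `x` of `1/2`, the bounded Lipschitz distance between the law
of the trace and the one at `1/2` is at most `C ((x δ^(-3/4))^(1/3) + δ)`, so the weak limits are the
same if `x = o(δ^(3/4))`. In particular this holds for the FK models with parameters `q ≠ 1` at their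
self-dual points, with `x = |q - 1|`: for fixed `q` the interface looks like the one of percolation
in boxes whose size is small compared with `|q - 1|^(-4/3)`, in lattice units.
(3) For `p ≥ 1/2` the trace is within `ε` of the free boundary arc, and (4) for `p ≤ 1/2` of the
wired boundary arc, but for an event of probability at most
`C exp (- c (|p - 1/2| δ^(-3/4))^(4/3))`.

Definitions (in `Pool.Agent.H934R2.Expl.Model`): `Rect` (the domain), `Rect.edges` (the edges of the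
discrete domain), `Rect.trace` (the trace of the exploration path of a set of open edges),
`Rect.law` (its law when all configurations are equally likely); in `Pool.Agent.Helper47K9.FQ.Gen`:
`IsW`, `Near`, `genLaw`; in `Pool.Agent.Helper47K9.FQ.Mod`: `fkLaw` (the law of the trace for the FK
model, `psd`, `ncl`, `wt`, `Z`).

Authors: helper38, with helper25 and helper75; (2) in the form above: helper47.
-/

namespace Pool.Agent.Results.MP_b3e76a_pr.NearCriticalInterface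

open MeasureTheory TopologicalSpace Filter Topology Finset H974 H934E Pool.Agent.Helper47K9.FQ

/-- `F` is a random subset of the finite set `S`; it contains the elements `e` of `S` independently
of each other, with probabilities `p e`. -/
def RandomSubset {Ω : Type} [MeasurableSpace Ω] (μ : Measure Ω) (S : Finset Edg) (p : Edg → ℝ)
    (F : Ω → Finset Edg) : Prop :=
  (∀ ω, F ω ⊆ S) ∧ ∀ T : Finset Edg, T ⊆ S → MeasurableSet {ω | F ω = T} ∧
    μ {ω | F ω = T} = ENNReal.ofReal ((∏ e ∈ T, p e) * ∏ e ∈ S \ T, (1 - p e))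

/-- The law of the trace at mesh `δ`, when the edges `e` are open independently of each other, with
probabilities `p e`. -/
noncomputable def lawOf (R : Rect) {δ : ℝ} (hδ : 0 < δ) (p : Edg → unitInterval) :
    ProbabilityMeasure (NonemptyCompacts ℂ) :=
  ⟨∑ F ∈ (R.edges δ).powerset,
    ENNReal.ofReal ((∏ e ∈ F, (p e : ℝ)) * ∏ e ∈ R.edges δ \ F, (1 - (p e : ℝ))) •
      Measure.dirac (R.trace hδ F), ⟨NI38.lawpM_univ R hδ p⟩⟩

/-- The free boundary arc, from `b = 0` counterclockwise to `a = t + i H`. -/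
def freeArc (R : Rect) : Set ℂ :=
  {z | (z.im = 0 ∧ 0 ≤ z.re ∧ z.re ≤ R.B) ∨ (z.re = R.B ∧ 0 ≤ z.im ∧ z.im ≤ R.H) ∨
    (z.im = R.H ∧ R.t ≤ z.re ∧ z.re ≤ R.B)}

/-- The wired boundary arc, from `a = t + i H` counterclockwise to `b = 0`. -/
def wiredArc (R : Rect) : Set ℂ :=
  {z | (z.im = 0 ∧ -R.A ≤ z.re ∧ z.re ≤ 0) ∨ (z.re = -R.A ∧ 0 ≤ z.im ∧ z.im ≤ R.H) ∨
    (z.im = R.H ∧ -R.A ≤ z.re ∧ z.re ≤ R.t)}

/-- The bounded Lipschitz distance of the laws `P` and `Q` is at most `η`. -/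
def BLDist (P Q : ProbabilityMeasure (NonemptyCompacts ℂ)) (η : ℝ) : Prop :=
  ∀ f : NonemptyCompacts ℂ → ℝ, (∀ K, |f K| ≤ 1) → (∀ K K', |f K - f K'| ≤ dist K K') →
    |∫ K, f K ∂(P : Measure (NonemptyCompacts ℂ)) -
      ∫ K, f K ∂(Q : Measure (NonemptyCompacts ℂ))| ≤ η

theorem result :
    (∀ R : Rect, ∃ C δ0 : ℝ, 0 < C ∧ 0 < δ0 ∧ ∀ ε : ℝ, 0 < ε → ε ≤ 1 →
      ∀ (δ : ℝ) (hδ : 0 < δ), δ < δ0 → 100 * δ < ε → ∀ x : ℝ, 0 ≤ x → x ≤ 1/2 →
      ∀ (Ω : Type) [MeasurableSpace Ω] (μ : Measure Ω) (Fm Fp : Ω → Finset Edg),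
        RandomSubset μ (R.edges δ) (fun _ => 1/2 - x) Fm →
        RandomSubset μ (R.edges δ) (fun _ => 1/2 + x) Fp →
        (∀ ω, Fm ω ⊆ Fp ω) →
        μ {ω | ∃ F G : Finset Edg, (Fm ω ⊆ F ∧ F ⊆ Fp ω) ∧ (Fm ω ⊆ G ∧ G ⊆ Fp ω) ∧
          ε < dist (R.trace hδ F) (R.trace hδ G)} ≤
          ENNReal.ofReal (C * (x * δ ^ (-(3/4 : ℝ))) / ε ^ 2)) ∧
    ((∀ R : Rect, ∃ C δ0 : ℝ, 0 < C ∧ 0 < δ0 ∧ ∀ (δ : ℝ) (hδ : 0 < δ), δ < δ0 →
        (∀ (x : ℝ) (ν : Finset Edg → ℝ) (hν : IsW (R.edges δ) ν), 0 ≤ x → Near x (R.edges δ) ν →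
          BLDist (genLaw R hδ ν hν) (R.law hδ) (C * ((x * δ ^ (-(3/4 : ℝ))) ^ (1/3 : ℝ) + δ))) ∧
        ∀ (q : ℝ) (hq : 0 < q), BLDist (fkLaw R hδ hq) (R.law hδ)
          (C * ((|q - 1| * δ ^ (-(3/4 : ℝ))) ^ (1/3 : ℝ) + δ))) ∧
      ∀ (R : Rect) (δ : ℕ → ℝ) (hδ : ∀ n, 0 < δ n), Tendsto δ atTop (𝓝 0) →
        (∀ (ν : ℕ → Finset Edg → ℝ) (hν : ∀ n, IsW (R.edges (δ n)) (ν n)) (x : ℕ → ℝ),
          (∀ n, 0 ≤ x n) → (∀ n, Near (x n) (R.edges (δ n)) (ν n)) →
          Tendsto (fun n => x n * δ n ^ (-(3/4 : ℝ))) atTop (𝓝 0) →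
          ∀ μ : ProbabilityMeasure (NonemptyCompacts ℂ),
            Tendsto (fun n => genLaw R (hδ n) (ν n) (hν n)) atTop (𝓝 μ) ↔
              Tendsto (fun n => R.law (hδ n)) atTop (𝓝 μ)) ∧
        (∀ (q : ℕ → ℝ) (hq : ∀ n, 0 < q n),
          Tendsto (fun n => |q n - 1| * δ n ^ (-(3/4 : ℝ))) atTop (𝓝 0) →
          ∀ μ : ProbabilityMeasure (NonemptyCompacts ℂ),
            Tendsto (fun n => fkLaw R (hδ n) (hq n)) atTop (𝓝 μ) ↔
              Tendsto (fun n => R.law (hδ n)) atTop (𝓝 μ))) ∧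
    (∀ (R : Rect) (ε : ℝ), 0 < ε → ∃ c C δ0 : ℝ, 0 < c ∧ 0 < C ∧ 0 < δ0 ∧
      ∀ (δ : ℝ) (hδ : 0 < δ), δ < δ0 → ∀ p : unitInterval, 1/2 ≤ (p : ℝ) →
        (lawOf R hδ (fun _ => p) : Measure (NonemptyCompacts ℂ))
          {K | ε < Metric.hausdorffDist (K : Set ℂ) (freeArc R)} ≤
          ENNReal.ofReal
            (C * Real.exp (-(c * (((p : ℝ) - 1/2) * δ ^ (-(3/4 : ℝ))) ^ (4/3 : ℝ))))) ∧
    (∀ (R : Rect) (ε : ℝ), 0 < ε → ∃ c C δ0 : ℝ, 0 < c ∧ 0 < C ∧ 0 < δ0 ∧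
      ∀ (δ : ℝ) (hδ : 0 < δ), δ < δ0 → ∀ p : unitInterval, (p : ℝ) ≤ 1/2 →
        (lawOf R hδ (fun _ => p) : Measure (NonemptyCompacts ℂ))
          {K | ε < Metric.hausdorffDist (K : Set ℂ) (wiredArc R)} ≤
          ENNReal.ofReal
            (C * Real.exp (-(c * ((1/2 - (p : ℝ)) * δ ^ (-(3/4 : ℝ))) ^ (4/3 : ℝ))))) := by
  refine ⟨?_, ?_, ?_, ?_⟩
  · intro R
    obtain ⟨C, δ0, hC, hδ0, h⟩ := NI38.window R
    refine ⟨C, δ0, hC, hδ0, ?_⟩
    intro ε hε hε1 δ hδ hlt h100 x h0 h1 Ω _ μ Fm Fp hm hp hmp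
    refine (measure_mono ?_).trans (h ε hε hε1 δ hδ hlt h100 x h0 h1 Ω μ Fm Fp hm hp hmp)
    rintro ω ⟨F, G, hF, hG, hd⟩
    exact ⟨F, G, hF, hG, fun hc => absurd hd (not_lt.mpr hc.1)⟩
  · refine ⟨fun R => ?_, ?_⟩
    · obtain ⟨C, δ0, hC, hδ0, H⟩ := bl R
      refine ⟨C, δ0, hC, hδ0, fun δ hδ hlt => ⟨fun x ν hν hx hn f h1 h2 =>
        H δ hδ hlt x hx ν hν hn f h1 h2, fun q hq f h1 h2 =>
        H δ hδ hlt |q - 1| (abs_nonneg _) _ (fk_isW R δ hq) (fk_near R δ hq) f h1 h2⟩⟩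
    · intro R δ hδ hlim
      exact ⟨fun ν hν x hx hn hw μ => limG R δ hδ hlim ν hν x hx hn hw μ, fun q hq hw μ =>
        limG R δ hδ hlim (fun n T => wt R (δ n) (q n) T / Z R (δ n) (q n))
          (fun n => fk_isW R (δ n) (hq n)) (fun n => |q n - 1|) (fun n => abs_nonneg _)
          (fun n => fk_near R (δ n) (hq n)) hw μ⟩
  · exact fun R ε hε => NI38.far_law R ε hε
  · exact fun R ε hε => NI38.war_law R ε hε

end Pool.Agent.Results.MP_b3e76a_pr.NearCriticalInterface
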