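import Pool.Agent.Helper20K9.UL.Asm
import Pool.Agent.Results.MP_fe58d8_pr.UniformDimension

/-!
# There are no exceptional lines for the percolation interface

The random cluster model with `q = 1` at its self-dual point (critical bond percolation) on `δ ℤ²`
in a rectangle `D = (-A, B) × (0, H)`, with the counterclockwise boundary arc from `a = t + i H` to
`b = 0` wired and the other one dual-wired. The exploration path (the interface) is parametrised by
its number of steps: `Rect.curve` is the piecewise linear curve on `[0, 1]` run at constant speed,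
and `Rect.time` is the number of steps times `δ ^ (7/4)`; `Rect.law` is the law of (curve, time).
Weak limits exist along a subsequence of every sequence of meshes. For every weak limit:

* almost surely, for ALL lines and for ALL circles simultaneously, the part of the trace in `D` on
  the line (circle) has Hausdorff dimension at most `3/4`, and the set of times at which the curve
  is there has dimension at most `3/7`;
* for every line which meets `D` the essential supremum of the dimension is exactly `3/4`;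
* more generally, for every family of sets of polynomial entropy and dimension `β > 1/2` (`Entropy`
  below), almost surely, for all members `S` of the family simultaneously, the part of the trace
  in `D ∩ S` has dimension at most `β - 1/4`, and the set of times at which the curve is there
  at most `(4/7) (β - 1/4)`; its part in a compact subset of `D` is covered by
  `2 ^ ((β - 1/4 + ε) n)` discs of radius `2 ^ (-n)`, for all large `n`, uniformly in `S`; for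
  instance, with `β = 1`, for every Lipschitz family (with any number of parameters) of uniformly
  bi-Lipschitz arcs.

For a fixed set these bounds are in the starting files (`MP_fe58d8_pr.HittingDimension`); the
exceptional null set depended on the set.

Definitions: `Pool.Agent.H984R4.NP.Model` (`Rect`, `pos`, `clamp`, `pl`, `X`, `Rect.D`, `Rect.dm`,
`Rect.curve`, `Rect.time`, `Rect.law`), `Pool.Agent.H984R4.NP.Defs` (`Dm`, `Dm.edges`, `Dm.wir`,
`Dm.cfg`, `Dm.walk`, `Dm.len`) and `Pool.Agent.H984R3.Per.Defs` (states, `ae`, `mv`, `rt`, `nxt`,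
`orb`).

Formalisation of the leaves (many-point sums, moments, Borel-Cantelli, nets of lines and circles):
helper54, helper88, helper92.
-/

set_option autoImplicit false

namespace Pool.Agent.Results.MP_b3e76a_pr.NoExceptionalLines

open H984N MeasureTheory Filter Topology
open scoped ENNReal

/-- The line through `a` in the direction `v` (for `v ≠ 0`). -/
def line (a v : ℂ) : Set ℂ := {z | ∃ t : ℝ, z = a + t * v}

/-- The family `𝒮` of subsets of the plane has polynomial entropy and dimension `β`: there are `k`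
and `Q` such that for every `n` there are at most `Q 2 ^ (k n)` finite sets `T`, each with at most
`Q (2 ^ n ρ) ^ β` points in every disc of radius `ρ ≥ 2 ^ (-n)`, such that every member of `𝒮` is
contained in the `2 ^ (-n)`-neighbourhood of one of them. -/
def Entropy (𝒮 : Set (Set ℂ)) (β : ℝ) : Prop :=
  ∃ (k : ℕ) (Q : ℝ), 0 < Q ∧ ∀ n : ℕ, ∃ 𝒯 : Finset (Finset ℂ), ((𝒯.card : ℝ) ≤ Q * 2 ^ (k * n)) ∧
    (∀ T ∈ 𝒯, ∀ (x : ℂ) (ρ : ℝ), (2 : ℝ) ^ (-(n : ℝ)) ≤ ρ →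
      ((T : Set ℂ) ∩ Metric.closedBall x ρ).ncard ≤ Q * (ρ * 2 ^ (n : ℝ)) ^ β) ∧
    ∀ S ∈ 𝒮, ∃ T ∈ 𝒯, S ⊆ ⋃ x ∈ T, Metric.closedBall x ((2 : ℝ) ^ (-(n : ℝ)))

theorem result (R : Rect) :
    (∀ δ : ℕ → ℝ, (∀ i, 0 < δ i) → Tendsto δ atTop (𝓝 0) →
      ∃ φ : ℕ → ℕ, StrictMono φ ∧ ∃ μ : ProbabilityMeasure X,
        Tendsto (fun i => R.law (δ (φ i))) atTop (𝓝 μ)) ∧
    (∀ δ : ℕ → ℝ, (∀ i, 0 < δ i) → Tendsto δ atTop (𝓝 0) → ∀ μ : ProbabilityMeasure X,
      Tendsto (fun i => R.law (δ i)) atTop (𝓝 μ) →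
      (∀ᵐ p ∂(μ : Measure X),
        (∀ a v : ℂ, v ≠ 0 → dimH (Set.range p.1 ∩ line a v ∩ R.D) ≤ 3 / 4 ∧
          dimH {s : unitInterval | p.1 s ∈ line a v ∩ R.D} ≤ 3 / 7) ∧
        (∀ (c : ℂ) (ρ : ℝ), 0 < ρ → dimH (Set.range p.1 ∩ Metric.sphere c ρ ∩ R.D) ≤ 3 / 4 ∧
          dimH {s : unitInterval | p.1 s ∈ Metric.sphere c ρ ∩ R.D} ≤ 3 / 7)) ∧
      (∀ a v : ℂ, v ≠ 0 → (line a v ∩ R.D).Nonempty →
        essSup (fun p : X => dimH (Set.range p.1 ∩ line a v ∩ R.D)) (μ : Measure X) = 3 / 4) ∧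
      (∀ (𝒮 : Set (Set ℂ)) (β : ℝ), 1 / 2 < β → Entropy 𝒮 β →
        ∀ᵐ p ∂(μ : Measure X), ∀ S ∈ 𝒮,
          dimH (Set.range p.1 ∩ S ∩ R.D) ≤ ENNReal.ofReal (β - 1 / 4) ∧
          dimH {s : unitInterval | p.1 s ∈ S ∩ R.D} ≤ ENNReal.ofReal (4 / 7 * (β - 1 / 4))) ∧
      (∀ (𝒮 : Set (Set ℂ)) (β : ℝ), 1 / 2 < β → Entropy 𝒮 β → ∀ A : Set ℂ, IsCompact A → A ⊆ R.D →
        ∀ᵐ p ∂(μ : Measure X), ∀ ε : ℝ, 0 < ε → ∀ᶠ n : ℕ in atTop, ∀ S ∈ 𝒮,
          ∃ J : Finset ℂ, (J.card : ℝ) ≤ (2 : ℝ) ^ ((β - 1 / 4 + ε) * n) ∧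
            Set.range p.1 ∩ S ∩ A ⊆ ⋃ x ∈ J, Metric.closedBall x ((2 : ℝ) ^ (-(n : ℝ)))) ∧
      (∀ (k : ℕ) (M : ℝ) (F : (Fin k → ℝ) → ℝ → ℂ), 0 < M →
        (∀ θ ∈ Set.Icc (0 : Fin k → ℝ) 1, ∀ θ' ∈ Set.Icc (0 : Fin k → ℝ) 1,
          ∀ s ∈ Set.Icc (0 : ℝ) 1, dist (F θ s) (F θ' s) ≤ M * dist θ θ') →
        (∀ θ ∈ Set.Icc (0 : Fin k → ℝ) 1, ∀ s ∈ Set.Icc (0 : ℝ) 1, ∀ s' ∈ Set.Icc (0 : ℝ) 1,
          dist s s' ≤ M * dist (F θ s) (F θ s') ∧ dist (F θ s) (F θ s') ≤ M * dist s s') →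
        ∀ᵐ p ∂(μ : Measure X), ∀ θ ∈ Set.Icc (0 : Fin k → ℝ) 1,
          dimH (Set.range p.1 ∩ F θ '' Set.Icc (0 : ℝ) 1 ∩ R.D) ≤ 3 / 4 ∧
          dimH {s : unitInterval | p.1 s ∈ F θ '' Set.Icc (0 : ℝ) 1 ∩ R.D} ≤ 3 / 7)) := by
  obtain ⟨h1, h2⟩ := Pool.Agent.Results.MP_fe58d8_pr.UniformDimension.result R
  refine ⟨h1, fun δ hδ hlim μ hμ => ?_⟩
  have hU := h2 δ hδ hlim μ hμ
  have e34 : ENNReal.ofReal (1 - 1 / 4) = 3 / 4 := Helper20K9.UL.e34
  have e37 : ENNReal.ofReal (4 / 7 * (1 - 1 / 4)) = 3 / 7 := by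
    rw [show (4 / 7 * (1 - 1 / 4) : ℝ) = 3 / 7 by norm_num,
      ENNReal.ofReal_div_of_pos (by norm_num)]
    norm_num
  have key : ∀ (p : X), (∀ E : Set unitInterval, dimH (p.1 '' E) = 7 / 4 * dimH E) →
      ∀ (S : Set ℂ) (b : ℝ), 0 ≤ b → dimH (Set.range p.1 ∩ S ∩ R.D) ≤ ENNReal.ofReal b →
        dimH {s : unitInterval | p.1 s ∈ S ∩ R.D} ≤ ENNReal.ofReal (4 / 7 * b) := by
    intro p hp S b hb h
    have e : p.1 '' {s : unitInterval | p.1 s ∈ S ∩ R.D} = Set.range p.1 ∩ (S ∩ R.D) :=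
      Set.image_preimage_eq_range_inter
    have h5 := hp {s : unitInterval | p.1 s ∈ S ∩ R.D}
    rw [e, ← Set.inter_assoc] at h5
    exact Helper20K9.UL.times hb h5 h
  have hgen : ∀ (𝒮 : Set (Set ℂ)) (β : ℝ), 1 / 2 < β → Helper20K9.UL.Ent 𝒮 β →
        ∀ᵐ p ∂(μ : Measure X), ∀ S ∈ 𝒮,
          dimH (Set.range p.1 ∩ S ∩ R.D) ≤ ENNReal.ofReal (β - 1 / 4) ∧
          dimH {s : unitInterval | p.1 s ∈ S ∩ R.D} ≤ ENNReal.ofReal (4 / 7 * (β - 1 / 4)) := by
    intro 𝒮 β hβ hE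
    filter_upwards [hU, Helper20K9.UL.fin_gen R hδ hlim hμ 𝒮 hβ hE] with p hp1 hp2 S hS
    exact ⟨hp2 S hS, key p hp1 S (β - 1 / 4) (by linarith) (hp2 S hS)⟩
  refine ⟨?_, ?_, fun 𝒮 β hβ hE => hgen 𝒮 β hβ hE,
    fun 𝒮 β hβ hE A hA hAD => Helper20K9.UL.fin_cov R hδ hlim hμ hβ hE hA hAD, ?_⟩
  · filter_upwards [hU, Helper20K9.UL.fin_lin R hδ hlim hμ, Helper20K9.UL.fin_cir R hδ hlim hμ]
      with p hp1 hp2 hp3
    refine ⟨fun a v hv => ?_, fun c ρ hρ => ?_⟩
    · have g := hp2 a v hv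
      refine ⟨g, ?_⟩
      rw [← e37]
      refine key p hp1 (line a v) (1 - 1 / 4) (by norm_num) ?_
      rw [e34]
      exact g
    · have g := hp3 c ρ hρ
      refine ⟨g, ?_⟩
      rw [← e37]
      refine key p hp1 (Metric.sphere c ρ) (1 - 1 / 4) (by norm_num) ?_
      rw [e34]
      exact g
  · intro a v hv hne
    exact Helper20K9.UL.fin_sharp R hδ hlim hμ a v hv hne
  · intro k M F hM hF1 hF2
    have hE := Helper54K9.UL.fam k M F hM hF1 hF2
    filter_upwards [hgen _ 1 (by norm_num) hE] with p hp θ hθ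
    have g := hp (F θ '' Set.Icc (0 : ℝ) 1) ⟨θ, hθ, rfl⟩
    rw [e34, e37] at g
    exact g

end Pool.Agent.Results.MP_b3e76a_pr.NoExceptionalLines
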