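import Pool.Agent.Helper75K9.QI.Fin
import Pool.Agent.Helper75K9.QI.Par
import Pool.Agent.Helper75K9.QI.Env
import Pool.Agent.Helper75K9.QI.Ss
import Pool.Agent.Helper75K9.QI.Mle
import Pool.Agent.Helper75K9.QI.Exp
import Pool.Agent.Helper75K9.QI.Tree
import Pool.Agent.Helper75K9.QI.Cor
import Pool.Agent.Helper75K9.QI.Arm
import Pool.Agent.Helper75K9.QI.Geo
import Pool.Agent.Helper75K9.QI.Rev
import Pool.Agent.Helper75K9.QI.Ar4
import Pool.Agent.Helper75K9.QI.Loc
import Pool.Agent.Helper75K9.QI.Det
import Pool.Agent.Helper75K9.QI.Main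
import Pool.Agent.Helper75K9.QI.Aes

/-!
Bond percolation on `δ ℤ²` (the FK model with `q = 1`) in a rectangle `D = (-A, B) × (0, H)`, with
the counterclockwise boundary arc from `a = t + i H` to `b = 0` wired and the other one dual-wired,
in a random environment: the probabilities of the edges are independent random variables with
mean `1/2`. The quenched law of the exploration path (given the environment) has the same scaling
limits as the law of the homogeneous critical model, and the exploration path is sensitive to noise.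

There is an exponent `c > 0` such that for every rectangle: (1) if the parameters `u_e` satisfy
`E (2 u_e - 1)² ≤ 1 - τ` then the integrals of bounded Lipschitz functions `Φ` of the trace (for the
Hausdorff metric) with respect to the quenched law and to the critical law differ in `L²` of the
environment by at most `(C δ^c / τ²)^(1/2)`; (2) when the edges are resampled independently of each
other with probability `τ`, the same bound holds for the conditional law of the trace of the new
configuration, given the whole first configuration; (3) if `δ_n → 0`, `δ_n^c / τ_n² → 0`, the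
critical laws converge to `μ` if and only if the quenched laws converge to `μ` in probability;
(4) if `∑ δ_n^c < ∞`, for a fixed law of the environment with `τ > 0`, the critical laws converge to
`μ` if and only if the quenched laws converge to `μ` for almost every environment.

Definitions (in `Pool.Agent.H934R2.Expl.Model`): `Rect` (the domain), `Rect.edges` (the edges of the
discrete domain), `Rect.trace` (the trace of the exploration path of a set of open edges),
`Rect.law` (its law when all configurations are equally likely).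
-/

namespace Pool.Agent.Results.MP_b3e76a_pr.QuenchedInterface

open MeasureTheory TopologicalSpace Filter Topology Finset H974 H934E

/-- The law of the trace at mesh `δ`, when the edges `e` are open independently of each other, with
probabilities `p e`. -/
noncomputable def lawOf (R : Rect) {δ : ℝ} (hδ : 0 < δ) (p : Edg → unitInterval) :
    ProbabilityMeasure (NonemptyCompacts ℂ) :=
  ⟨∑ F ∈ (R.edges δ).powerset,
    ENNReal.ofReal ((∏ e ∈ F, (p e : ℝ)) * ∏ e ∈ R.edges δ \ F, (1 - (p e : ℝ))) •
      Measure.dirac (R.trace hδ F), ⟨NI38.lawpM_univ R hδ p⟩⟩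

/-- The laws `ν e` of the parameters of the edges have mean `1/2`, and `E (2 u - 1)² ≤ 1 - τ`
(there is equality in `E (2 u - 1)² ≤ 1` only for parameters with values in `{0, 1}`). -/
structure Fair (τ : ℝ) (ν : Edg → ProbabilityMeasure unitInterval) : Prop where
  mean : ∀ e, ∫ u, (u : ℝ) ∂(ν e : Measure unitInterval) = 1 / 2
  var : ∀ e, ∫ u, (2 * (u : ℝ) - 1) ^ 2 ∂(ν e : Measure unitInterval) ≤ 1 - τ

/-- The law of the environment: independent parameters. -/
noncomputable def environment (ν : Edg → ProbabilityMeasure unitInterval) :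
    Measure (Edg → unitInterval) :=
  Measure.infinitePi (fun e => (ν e : Measure unitInterval))

/-- The conditional probabilities of the edges, given that the first configuration is `T`, when
every edge is resampled with probability `τ`. -/
noncomputable def resampled (τ : unitInterval) (T : Finset Edg) (e : Edg) : unitInterval :=
  if e ∈ T then ⟨1 - (τ : ℝ) / 2, by linarith [τ.2.2], by linarith [τ.2.1]⟩
  else ⟨(τ : ℝ) / 2, by linarith [τ.2.1], by linarith [τ.2.2]⟩

/-- Bounded Lipschitz functions of the trace. -/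
def BoundedLipschitz (Φ : NonemptyCompacts ℂ → ℝ) : Prop :=
  (∃ M : ℝ, ∀ x, |Φ x| ≤ M) ∧ ∃ K, LipschitzWith K Φ

theorem result : ∃ c : ℝ, 0 < c ∧ ∀ R : Rect,
    (∀ M K : ℝ, 0 ≤ M → 0 ≤ K → ∃ C δ0 : ℝ, 0 < C ∧ 0 < δ0 ∧
      ∀ (δ : ℝ) (hδ : 0 < δ), δ < δ0 → ∀ Φ : NonemptyCompacts ℂ → ℝ,
        (∀ x, |Φ x| ≤ M) → (∀ x y, |Φ x - Φ y| ≤ K * dist x y) →
        (∀ τ : ℝ, 0 < τ → τ ≤ 1 → ∀ ν : Edg → ProbabilityMeasure unitInterval, Fair τ ν →
          ∫⁻ P, ENNReal.ofReal ((∫ x, Φ x ∂(lawOf R hδ P : Measure (NonemptyCompacts ℂ)) -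
            ∫ x, Φ x ∂(R.law hδ : Measure (NonemptyCompacts ℂ))) ^ 2) ∂(environment ν) ≤
            ENNReal.ofReal (C * δ ^ c / τ ^ 2)) ∧
        (∀ τ : unitInterval, 0 < (τ : ℝ) →
          (1 / 2) ^ (R.edges δ).card * ∑ T ∈ (R.edges δ).powerset,
            (∫ x, Φ x ∂(lawOf R hδ (resampled τ T) : Measure (NonemptyCompacts ℂ)) -
              ∫ x, Φ x ∂(R.law hδ : Measure (NonemptyCompacts ℂ))) ^ 2 ≤
            C * δ ^ c / (τ : ℝ) ^ 2)) ∧
    (∀ (δ : ℕ → ℝ) (hδ : ∀ n, 0 < δ n), Tendsto δ atTop (𝓝 0) →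
      ∀ τ : ℕ → ℝ, (∀ n, 0 < τ n ∧ τ n ≤ 1) →
        Tendsto (fun n => δ n ^ c / τ n ^ 2) atTop (𝓝 0) →
      ∀ ν : ℕ → Edg → ProbabilityMeasure unitInterval, (∀ n, Fair (τ n) (ν n)) →
      ∀ μ : ProbabilityMeasure (NonemptyCompacts ℂ),
        Tendsto (fun n => R.law (hδ n)) atTop (𝓝 μ) ↔
          ∀ Φ, BoundedLipschitz Φ → ∀ ε : ℝ, 0 < ε →
            Tendsto (fun n => environment (ν n)
              {P | ε ≤ |∫ x, Φ x ∂(lawOf R (hδ n) P : Measure (NonemptyCompacts ℂ)) -
                ∫ x, Φ x ∂(μ : Measure (NonemptyCompacts ℂ))|}) atTop (𝓝 0)) ∧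
    (∀ (δ : ℕ → ℝ) (hδ : ∀ n, 0 < δ n), Tendsto δ atTop (𝓝 0) → Summable (fun n => δ n ^ c) →
      ∀ τ : ℝ, 0 < τ → τ ≤ 1 → ∀ ν : Edg → ProbabilityMeasure unitInterval, Fair τ ν →
      ∀ μ : ProbabilityMeasure (NonemptyCompacts ℂ),
        Tendsto (fun n => R.law (hδ n)) atTop (𝓝 μ) ↔
          ∀ᵐ P ∂(environment ν), Tendsto (fun n => lawOf R (hδ n) P) atTop (𝓝 μ)) := by
  have hss := QI75.ss QI75.par
  have htree := QI75.tree QI75.exp_ QI75.cor
  have hrev := QI75.rev QI75.arm_ QI75.geo
  have hmain := QI75.main (QI75.sum_ QI75.par hss) (QI75.mle QI75.par) htree hrev QI75.ar4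
    (QI75.det QI75.loc)
  obtain ⟨c, hc, hq⟩ := QI75.quant hmain QI75.env QI75.nse
  refine ⟨c, hc, fun R => ⟨?_, ?_, ?_⟩⟩
  · intro M K hM hK
    obtain ⟨C, δ0, hC, hδ0, h⟩ := hq R M K hM hK
    refine ⟨C, δ0, hC, hδ0, ?_⟩
    intro δ hδ hlt Φ hΦ hΦK
    constructor
    · intro τ hτ hτ1 ν hν
      exact (h δ hδ hlt Φ hΦ hΦK τ hτ hτ1).1 (fun e => (ν e : Measure unitInterval)) hν.mean hν.var
    · intro τ hτ
      refine (h δ hδ hlt Φ hΦ hΦK τ hτ τ.2.2).2 (resampled τ) ?_
      intro T e
      unfold resampled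
      by_cases he : e ∈ T
      · rw [if_pos he, ind_of he]
        simp only
        ring
      · rw [if_neg he, ind_not_of he]
        simp only
        ring
  · intro δ hδ hδ0 τ hτ hτ0 ν hν μ
    exact QI75.conv_iff hq R δ hδ hδ0 τ hτ hτ0 (fun n e => (ν n e : Measure unitInterval))
      (fun n => (hν n).mean) (fun n => (hν n).var) μ
  · intro δ hδ hδ0 hsum τ hτ hτ1 ν hν μ
    exact QI75.ae_iff_conv QI75.aes hq R δ hδ hδ0 hsum τ hτ hτ1
      (fun e => (ν e : Measure unitInterval)) hν.mean hν.var μ

end Pool.Agent.Results.MP_b3e76a_pr.QuenchedInterface
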